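import Pool.Agent.P.MP_530519_al.Final

/-! For solvable groups, `log |G| ≤ f(G) * 2 ^ (4 (log₂ log₂ f(G) + O(1)) ^ 4)`. -/

namespace Pool.Agent.Results.MP_530519_al.SolvableNearLog

open Pool.Agent.P.MP_530519_al

theorem result (G : Type) [Group G] [Finite G] [Group.IsSolvable G] :
    Real.log (Nat.card G) ≤
      mult G * 2 ^ (4 * (Nat.log 2 (Nat.log 2 (mult G) + 1) + 13) ^ 4) :=
  explicit_bound G

end Pool.Agent.Results.MP_530519_al.SolvableNearLog
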