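import Pool.Agent.P.MP_530519_al.SS.Final

/-! The logarithmic bound `c * log |G| ≤ f(G)` for solvable groups whose chief factors have prime
order or bounded order, in particular for supersolvable groups. -/

namespace Pool.Agent.Results.MP_530519_al.Supersolvable

open Pool.Agent.P.MP_530519_al

theorem result (B : ℕ) : ∃ c : ℝ, 0 < c ∧
    ∀ (G : Type) [Group G] [Finite G] [Group.IsSolvable G],
      (∀ N M : Subgroup G, IsChief N M → (N.relIndex M).Prime ∨ N.relIndex M ≤ B) →
      c * Real.log (Nat.card G) ≤ mult G :=
  log_bound_of_chief B

end Pool.Agent.Results.MP_530519_al.Supersolvable
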